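import Pool.Agent.Helper26.MCE.GoalsB

set_option autoImplicit false

/-!
Project MCE (MP_d8224a_co): marks covered from outside of the later trees.
-/

namespace Pool.Agent.Helper56.MCE

open Finset Pool.Agent.Helper87.MC Pool.Agent.Helper26.MCE

theorem c_down {s : ℕ} {V : Type} (c : ℕ → V → V)
    (ref : ∀ i < s, ∀ v v', c (i + 1) v = c (i + 1) v' → c i v = c i v') :
    ∀ (k i : ℕ), i + k ≤ s → ∀ v v', c (i + k) v = c (i + k) v' → c i v = c i v' := by
  intro k
  induction k with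
  | zero => intro i _ v v' h; exact h
  | succ k ih =>
    intro i hi v v' h
    exact ih i (by omega) v v' (ref (i + k) (by omega) v v' h)

theorem K_down {s : ℕ} {G : Type} [AddCommGroup G] (K : ℕ → AddSubgroup G)
    (anti : ∀ i < s, K (i + 1) ≤ K i) :
    ∀ (k i : ℕ), i + k ≤ s → K (i + k) ≤ K i := by
  intro k
  induction k with
  | zero => intro i _; exact le_refl _
  | succ k ih =>
    intro i hi
    exact (anti (i + k) (by omega)).trans (ih i (by omega))

open Classical in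
/-- One step: the number of the points for which the mark of the leaf `v₀` is covered by another
leaf, and an event independent of the coordinates of `v₀` holds. -/
theorem step (h1 : G_POS) (h2 : G_ONE) (G : Type) [AddCommGroup G] [Fintype G] (s : ℕ) (V : Type)
    [Fintype V] (D : Finset G) (K : ℕ → AddSubgroup G) (f : ℕ → ℕ) (B : ℕ → Finset G)
    (ρ ρh : ℕ → ℝ) (t L2 : ℝ) (c : ℕ → V → V) (ty : V → ℕ) (m : ℕ) (lam : ℕ → ℕ)
    (hC : Chain D s K f B ρ ρh t L2)
    (hF : Forest s V c ty f (fun i => Nat.card (K i)) ρ m lam) (hρ : ∀ i, 0 < ρ i)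
    (j : ℕ) (hj : j < s) (d : G) (hd : d ∈ lab D K j) (v₀ : V) (hv₀ : ty v₀ = j)
    (S1 : (Fin s × V → G) → Prop)
    (hS : ∀ ω ∈ Om s V K, ∀ l : Fin s, ∀ x ∈ K l,
      (S1 ω ↔ S1 (Function.update ω (l, c (l + 1) v₀) x))) :
    (((Om s V K).filter fun ω => S1 ω ∧ ∃ v', v' ≠ v₀ ∧ Cov D c ω v' (pos c ω v₀ + d)).card : ℝ) ≤
      (∑ l ∈ range s, ρ l) * ((Om s V K).filter S1).card := by
  obtain ⟨P1, P2, P3, P4⟩ := h1 G s V K c hC.anti hF.ref
  let A : ℕ → Finset V := fun l => univ.filter fun v' => c l v' = c l v₀ ∧ c (l + 1) v' ≠ c (l + 1) v₀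
  have key : ∀ l < s, ∀ v' ∈ A l,
      ((Om s V K).filter fun ω => S1 ω ∧ Cov D c ω v' (pos c ω v₀ + d)).card * Nat.card (K l) ≤
        f l * ((Om s V K).filter S1).card := by
    intro l hl v' hv'
    obtain ⟨hv1, hv2⟩ := (Finset.mem_filter.1 hv').2
    have hlj : l ≤ j := by
      by_contra hcon
      push Not at hcon
      have := hF.single v₀ l (by rw [hv₀]; exact hcon) hl.le v' hv1
      exact hv2 (by rw [this])
    have hNF : NF D (K l) d := by
      unfold lab at hd
      rw [Finset.mem_sdiff] at hd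
      obtain ⟨hd1, hd2⟩ := hd
      unfold full at hd1 hd2
      rw [Finset.mem_filter] at hd1 hd2
      have hd3 : ¬ ∀ h ∈ K j, d + h ∈ D := fun h => hd2 ⟨hd1.1, h⟩
      push Not at hd3
      obtain ⟨h, hh, hh2⟩ := hd3
      refine ⟨h, ?_, hh2⟩
      have := K_down K hC.anti (j - l) l (by omega)
      rw [show l + (j - l) = j by omega] at this
      exact this hh
    have h3 := (h2 G s V D K c f ⟨l, hl⟩ v₀ S1 (fun ω => pos c ω v' - d) hC.anti hF.ref
      (hC.fib_le l hl.le) (by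
        intro ω hω x hx
        refine ⟨hS ω hω ⟨l, hl⟩ x hx, ?_⟩
        show pos c (Function.update ω (⟨l, hl⟩, c (l + 1) v₀) x) v' - d = pos c ω v' - d
        rw [P2 ω ⟨l, hl⟩ (c (l + 1) v₀) x v' hv2])).2 (by
        intro ω hω _
        obtain ⟨h, hh, hh2⟩ := hNF
        have h4 := P1 ω hω l hl.le v₀ v' hv1.symm
        refine ⟨h - (pos c ω v₀ - pos c ω v'), (K l).sub_mem hh h4, ?_⟩
        have : pos c ω v₀ - (pos c ω v' - d) + (h - (pos c ω v₀ - pos c ω v')) = d + h := by abel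
        show pos c ω v₀ - (pos c ω v' - d) + (h - (pos c ω v₀ - pos c ω v')) ∉ D
        rw [this]
        exact hh2)
    have h5 : ((Om s V K).filter fun ω => S1 ω ∧ Cov D c ω v' (pos c ω v₀ + d)) =
        (Om s V K).filter fun ω => S1 ω ∧ pos c ω v₀ - (pos c ω v' - d) ∈ D := by
      apply Finset.filter_congr
      intro ω _
      unfold Cov
      rw [sub_sub_eq_add_sub]
    rw [h5]
    exact h3
  have hsub : ((Om s V K).filter fun ω => S1 ω ∧ ∃ v', v' ≠ v₀ ∧
      Cov D c ω v' (pos c ω v₀ + d)) ⊆ (range s).biUnion fun l => (A l).biUnion fun v' =>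
        (Om s V K).filter fun ω => S1 ω ∧ Cov D c ω v' (pos c ω v₀ + d) := by
    intro ω hω
    obtain ⟨hω1, hω2, v', hv', hcov⟩ := Finset.mem_filter.1 hω
    obtain ⟨l, hl, hl1, hl2, _, _⟩ := P4 v₀ v' (hF.c0 _ _) (by
      rw [hF.cs, hF.cs]; exact hv'.symm)
    refine Finset.mem_biUnion.2 ⟨l, Finset.mem_range.2 hl, Finset.mem_biUnion.2 ⟨v', ?_, ?_⟩⟩
    · exact Finset.mem_filter.2 ⟨Finset.mem_univ _, hl1.symm, hl2.symm⟩
    · exact Finset.mem_filter.2 ⟨hω1, hω2, hcov⟩
  have h6 : (((Om s V K).filter fun ω => S1 ω ∧ ∃ v', v' ≠ v₀ ∧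
      Cov D c ω v' (pos c ω v₀ + d)).card : ℝ) ≤ ∑ l ∈ range s, ∑ v' ∈ A l,
        (((Om s V K).filter fun ω => S1 ω ∧ Cov D c ω v' (pos c ω v₀ + d)).card : ℝ) := by
    have h7 := (Finset.card_le_card hsub).trans (Finset.card_biUnion_le.trans
      (Finset.sum_le_sum fun l _ => Finset.card_biUnion_le (s := A l)))
    exact_mod_cast h7
  refine h6.trans ?_
  rw [Finset.sum_mul]
  refine Finset.sum_le_sum fun l hl => ?_
  have hl' := Finset.mem_range.1 hl
  have hN : (0 : ℝ) < (Nat.card (K l) : ℝ) := by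
    exact_mod_cast Nat.card_pos
  have hAc : ((A l).card : ℝ) * f l ≤ ρ l * (Nat.card (K l) : ℝ) := by
    rcases hF.up v₀ l hl' with h | h
    · refine le_trans ?_ h
      refine mul_le_mul_of_nonneg_right ?_ (Nat.cast_nonneg _)
      have hsub2 : A l ⊆ univ.filter fun v'' => c l v'' = c l v₀ := fun x hx =>
        Finset.mem_filter.2 ⟨Finset.mem_univ _, (Finset.mem_filter.1 hx).2.1⟩
      exact_mod_cast Finset.card_le_card hsub2
    · have : A l = ∅ := by
        rw [Finset.eq_empty_iff_forall_notMem]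
        intro x hx
        obtain ⟨hx1, hx2⟩ := (Finset.mem_filter.1 hx).2
        exact hx2 (h x hx1)
      rw [this, Finset.card_empty, Nat.cast_zero, zero_mul]
      exact mul_nonneg (hρ l).le hN.le
  have h8 : ∀ v' ∈ A l,
      (((Om s V K).filter fun ω => S1 ω ∧ Cov D c ω v' (pos c ω v₀ + d)).card : ℝ) ≤
        (f l : ℝ) * ((Om s V K).filter S1).card / Nat.card (K l) := by
    intro v' hv'
    rw [le_div_iff₀ hN]
    exact_mod_cast key l hl' v' hv'
  refine (Finset.sum_le_sum h8).trans ?_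
  rw [Finset.sum_const, nsmul_eq_mul, mul_div_assoc', div_le_iff₀ hN]
  calc ((A l).card : ℝ) * ((f l : ℝ) * ((Om s V K).filter S1).card)
      = ((A l).card : ℝ) * f l * ((Om s V K).filter S1).card := by ring
    _ ≤ ρ l * (Nat.card (K l) : ℝ) * ((Om s V K).filter S1).card :=
        mul_le_mul_of_nonneg_right hAc (Nat.cast_nonneg _)
    _ = _ := by ring

open Classical in
theorem goalMB (h1 : G_POS) (h2 : G_ONE) : G_MB := by
  intro G _ _ s V _ D K f B ρ ρh t L2 c ty m lam hC hF hρ j hj d hd k v hv hvv I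
  have hσ : 0 ≤ ∑ l ∈ range s, ρ l := Finset.sum_nonneg fun l _ => (hρ l).le
  obtain ⟨P1, P2, P3, P4⟩ := h1 G s V K c hC.anti hF.ref
  refine Finset.induction_on_max I ?_ ?_
  · simp
  · intro a₀ I hI ih
    have ha₀ : a₀ ∉ I := fun h => lt_irrefl _ (hI a₀ h)
    let S1 : (Fin s × V → G) → Prop := fun ω => ∀ a ∈ I, ∃ v', v' ≠ v a ∧
      (∀ a', a < a' → c 1 v' ≠ c 1 (v a')) ∧ Cov D c ω v' (pos c ω (v a) + d)
    have hc1 : ∀ (l : Fin s) (u : V), c 1 u ≠ c 1 (v a₀) → c (l + 1) u ≠ c (l + 1) (v a₀) := by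
      intro l u hu he
      apply hu
      have := c_down c hF.ref l 1 (by omega) u (v a₀)
      rw [add_comm 1 (l : ℕ)] at this
      exact this he
    have hS : ∀ ω ∈ Om s V K, ∀ l : Fin s, ∀ x ∈ K l,
        (S1 ω ↔ S1 (Function.update ω (l, c (l + 1) (v a₀)) x)) := by
      intro ω hω l x hx
      have hp : ∀ u : V, c 1 u ≠ c 1 (v a₀) →
          pos c (Function.update ω (l, c (l + 1) (v a₀)) x) u = pos c ω u :=
        fun u hu => P2 ω l (c (l + 1) (v a₀)) x u (hc1 l u hu)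
      have he : ∀ a ∈ I, ∀ v' : V, (∀ a', a < a' → c 1 v' ≠ c 1 (v a')) →
          (Cov D c ω v' (pos c ω (v a) + d) ↔
            Cov D c (Function.update ω (l, c (l + 1) (v a₀)) x) v'
              (pos c (Function.update ω (l, c (l + 1) (v a₀)) x) (v a) + d)) := by
        intro a ha v' hv'
        unfold Cov
        rw [hp v' (hv' a₀ (hI a ha)), hp (v a) (hvv a a₀ (hI a ha).ne)]
      constructor
      · intro h a ha
        obtain ⟨v', h3, h4, h5⟩ := h a ha
        exact ⟨v', h3, h4, (he a ha v' h4).1 h5⟩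
      · intro h a ha
        obtain ⟨v', h3, h4, h5⟩ := h a ha
        exact ⟨v', h3, h4, (he a ha v' h4).2 h5⟩
    have h3 := step h1 h2 G s V D K f B ρ ρh t L2 c ty m lam hC hF hρ j hj d hd (v a₀) (hv a₀)
      S1 hS
    rw [Finset.card_insert_of_notMem ha₀, pow_succ', mul_assoc]
    have ih' : (((@Finset.filter _ S1 (fun a => Classical.propDecidable (S1 a)) (Om s V K)).card : ℕ)
        : ℝ) ≤ (∑ l ∈ range s, ρ l) ^ I.card * (Om s V K).card := by
      refine le_trans (le_of_eq ?_) ih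
      congr 2
      exact Finset.filter_congr_decidable _ _ _
    refine le_trans ?_ (h3.trans (mul_le_mul_of_nonneg_left ih' hσ))
    norm_cast
    apply Finset.card_le_card
    intro ω hω
    obtain ⟨hω1, hω2⟩ := Finset.mem_filter.1 hω
    refine Finset.mem_filter.2 ⟨hω1, fun a ha => hω2 a (Finset.mem_insert_of_mem ha), ?_⟩
    obtain ⟨v', h5, _, h6⟩ := hω2 a₀ (Finset.mem_insert_self _ _)
    exact ⟨v', h5, h6⟩

end Pool.Agent.Helper56.MCE
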